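import Pool.Agent.Helper76.SGA.Goals
import Pool.Agent.Helper20.Ru.IndMul
import Pool.Agent.Helper9.Ru.DivBound
import Pool.Agent.Helper96.Ru.HeightLocal

/-!
# Project SG (MP_a41896_nt), part A, packet BASE: one block
-/

set_option autoImplicit false

open MvPolynomial

namespace Pool.Agent.Helper35.SGA

open Pool.Agent.Helper92.Ru Pool.Agent.Helper42.SG Pool.Agent.Helper20.Ru

section

variable {k : Type} [Field k]

theorem eval_shift {σ : Type} (ξ : σ → k) (p : MvPolynomial σ k) :
    eval ξ p = constantCoeff (shiftP ξ p) := by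
  have h : (constantCoeff : MvPolynomial σ k →+* k).comp (shiftP ξ).toRingHom = eval ξ := by
    apply ringHom_ext
    · intro a
      simp [shiftP]
    · intro i
      simp [shiftP]
  have h2 := RingHom.congr_fun h p
  rw [← h2]
  rfl

theorem deg_vars {σ : Type} {p : MvPolynomial σ k} {i : σ} (h : p.degreeOf i = 0) :
    i ∉ p.vars := fun h' => mem_vars_iff_degreeOf_ne_zero.1 h' h

/-- an irreducible polynomial in the first variable has order at most one. -/
theorem one_var (ξ : Fin 2 → k) (f : MvPolynomial (Fin 2) k) (hf : Irreducible f)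
    (h1 : f.degreeOf 1 = 0) (h2 : ∀ e ∈ (shiftP ξ f).support, 2 ≤ e 0 + e 1) : False := by
  obtain ⟨g, hg⟩ := exists_rename_eq_of_vars_subset_range f (Fin.castSucc : Fin 1 → Fin 2)
    (Fin.castSucc_injective 1) (by
      intro i hi
      have hi1 : i ≠ 1 := fun h => deg_vars h1 (h ▸ hi)
      have hi0 : i = 0 := by omega
      exact ⟨0, by rw [hi0]; rfl⟩)
  have hUV : f = UV g 1 := by
    unfold UV
    rw [map_one, mul_one, hg]
  have hsh : shiftP ξ f = UV (shiftP (fun h => ξ (Fin.castSucc h)) g) 1 := by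
    rw [hUV, shiftP_UV, map_one]
  have he1 : ∀ e ∈ (shiftP ξ f).support, e 1 = 0 := by
    intro e he
    rw [hsh] at he
    unfold UV at he
    rw [map_one, mul_one, mem_support_iff] at he
    obtain ⟨u, hu, -⟩ := coeff_rename_ne_zero _ _ _ he
    rw [← hu]
    apply Finsupp.mapDomain_of_notMem_range
    rintro ⟨a, ha⟩
    have h3 : (Fin.castSucc a : Fin 2).val = (1 : Fin 2).val := congrArg Fin.val ha
    have h4 := a.isLt
    rw [Fin.val_castSucc] at h3
    have h5 : (1 : Fin 2).val = 1 := rfl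
    omega
  -- the translate is irreducible
  have hinv : ∀ p : MvPolynomial (Fin 2) k, shiftP (fun h => - ξ h) (shiftP ξ p) = p := by
    have h3 : ((shiftP (fun h => - ξ h)).comp (shiftP ξ) :
        MvPolynomial (Fin 2) k →ₐ[k] MvPolynomial (Fin 2) k) = AlgHom.id k _ := by
      apply algHom_ext
      intro i
      simp [shiftP]
    intro p
    exact AlgHom.congr_fun h3 p
  have hdvd : (monomial (Finsupp.single 0 2) 1 : MvPolynomial (Fin 2) k) ∣ shiftP ξ f := by
    rw [monomial_one_dvd_iff_modMonomial_eq_zero]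
    ext e
    rw [coeff_zero]
    by_cases hle : Finsupp.single 0 2 ≤ e
    · exact coeff_modMonomial_of_le _ hle
    · rw [coeff_modMonomial_of_not_le _ hle]
      by_contra hne
      have hmem := mem_support_iff.2 hne
      apply hle
      intro i
      have h3 := h2 e hmem
      have h4 := he1 e hmem
      by_cases hi : i = 0
      · rw [hi, Finsupp.single_eq_same]
        omega
      · rw [Finsupp.single_eq_of_ne hi]
        exact Nat.zero_le _
  obtain ⟨u, hu⟩ := hdvd
  have hmon : (monomial (Finsupp.single 0 2) 1 : MvPolynomial (Fin 2) k) = X 0 * X 0 := by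
    rw [← pow_two, X_pow_eq_monomial]
  have hf2 : f = shiftP (fun h => - ξ h) (X 0) * (shiftP (fun h => - ξ h) (X 0)
      * shiftP (fun h => - ξ h) u) := by
    rw [← map_mul, ← map_mul, ← mul_assoc, ← hmon, ← hu, hinv]
  have hnu : ¬ IsUnit (shiftP (fun h => - ξ h) (X 0 : MvPolynomial (Fin 2) k)) := by
    intro h3
    have h4 : shiftP (fun h => - ξ h) (X 0 : MvPolynomial (Fin 2) k) = X 0 + C (- ξ 0) := by
      simp [shiftP]
    rw [h4] at h3
    have h5 : eval (fun _ => ξ 0) (X 0 + C (- ξ 0) : MvPolynomial (Fin 2) k) = 0 := by simp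
    have h6 := h3.map (eval (fun _ : Fin 2 => ξ 0))
    rw [h5] at h6
    exact not_isUnit_zero h6
  rcases hf.isUnit_or_isUnit hf2 with h3 | h3
  · exact hnu h3
  · exact hnu (isUnit_of_mul_isUnit_left h3)

end

/-- **BASE** -/
theorem base (h1 : RES2) : BASE := by
  intro k _ _ σ hσ
  obtain ⟨C', hC1, hRES⟩ := h1 k
  have hdiv := Pool.Agent.Helper9.Ru.divBound Pool.Agent.Helper96.Ru.heightLocal
  set δ : ℝ := (Module.finrank ℚ k : ℝ) with hδ
  have hδ0 : 0 ≤ δ := Nat.cast_nonneg _
  have hl2 : 0 < Real.log 2 := Real.log_pos (by norm_num)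
  set μ : ℝ := min 2 (σ / 2) with hμ
  have hμ0 : 0 < μ := lt_min (by norm_num) (by positivity)
  set E : ℝ := δ * Real.log 2 + C' with hE
  have hE0 : 0 < E := by positivity
  refine ⟨⌈1 / σ⌉₊, max 1 (max (1 / σ) (8 * E / (σ * μ))), le_max_left _ _, ?_⟩
  intro d ξ H W f hd hdH hirr hinv hht
  obtain ⟨hf0, hW0, hdeg, hPHW, hind⟩ := hinv
  have hd0 : (0 : ℝ) < d := by exact_mod_cast hd
  have hd1 : (1 : ℝ) ≤ d := by exact_mod_cast hd
  have hH0 : 0 < H := lt_of_lt_of_le hd0 hdH
  have hKσ : 1 / σ ≤ max 1 (max (1 / σ) (8 * E / (σ * μ))) :=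
    (le_max_left _ _).trans (le_max_right _ _)
  have hKE : 8 * E / (σ * μ) ≤ max 1 (max (1 / σ) (8 * E / (σ * μ))) :=
    (le_max_right _ _).trans (le_max_right _ _)
  have hwt : ∀ e ∈ (shiftP ξ f).support, σ * W * d ≤ ((e 0 + e 1 : ℕ) : ℝ) := by
    intro e he
    have h2 := hind e he
    rw [Fin.sum_univ_two, ← add_div, le_div_iff₀ hd0] at h2
    push_cast
    exact h2
  have hpos : 0 < σ * W * d := by positivity
  have hev : eval ξ f = 0 := by
    rw [eval_shift]
    by_contra hne
    have hmem : (0 : Fin 2 →₀ ℕ) ∈ (shiftP ξ f).support := mem_support_iff.2 hne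
    have h2 := hwt 0 hmem
    simp only [Finsupp.coe_zero, Pi.zero_apply, add_zero, Nat.cast_zero] at h2
    linarith
  by_cases hsm : σ * W * d ≤ 1
  · have h2 : d * W ≤ 1 / σ := by
      rw [le_div_iff₀ hσ]
      linarith
    refine ⟨?_, hev, ?_⟩
    · intro e
      have h3 : (f.degreeOf e : ℝ) ≤ ⌈1 / σ⌉₊ := (hdeg e).trans (h2.trans (Nat.le_ceil _))
      exact_mod_cast h3
    · calc (d : ℝ) * Real.log (PH f) ≤ d * (H * W) := mul_le_mul_of_nonneg_left hPHW hd0.le
        _ = (d * W) * H := by ring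
        _ ≤ (1 / σ) * H := mul_le_mul_of_nonneg_right h2 hH0.le
        _ ≤ _ := mul_le_mul_of_nonneg_right hKσ hH0.le
  · exfalso
    push Not at hsm
    set o : ℕ := ⌈σ * W * d⌉₊ with ho
    have ho2 : 2 ≤ o := by
      have : 1 < o := Nat.lt_ceil.2 (by exact_mod_cast hsm)
      omega
    have hoge : σ * W * d ≤ o := Nat.le_ceil _
    have hord : ∀ e ∈ (shiftP ξ f).support, o ≤ e 0 + e 1 := fun e he =>
      Nat.ceil_le.2 (hwt e he)
    have hN : 1 ≤ f.degreeOf 1 := by
      by_contra hcon
      exact one_var ξ f hirr (by omega) fun e he => ho2.trans (hord e he)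
    have hIo : IndGe (fun _ => 1) ξ o f := by
      intro e he
      have h2 := hord e he
      rw [Fin.sum_univ_two, Nat.cast_one, div_one, div_one]
      exact_mod_cast h2
    have hdH' : ∀ h, (f.degreeOf h : ℝ) ≤ H * W := fun h =>
      (hdeg h).trans (mul_le_mul_of_nonneg_right hdH hW0.le)
    obtain ⟨g, hg0, hgdeg, hgPH, hgI⟩ := hRES ξ f (H * W) o hirr hN hdH' hPHW ho2 hIo
    set N : ℝ := (f.degreeOf 1 : ℝ) with hNdef
    have hN1 : (1 : ℝ) ≤ N := by
      rw [hNdef]
      exact_mod_cast hN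
    have hN0 : 0 < N := by linarith
    have ho0 : (0 : ℝ) < o := lt_of_lt_of_le hpos hoge
    have hNo : σ * N ≤ o := by
      have h2 : N ≤ d * W := hdeg 1
      calc σ * N ≤ σ * (d * W) := mul_le_mul_of_nonneg_left h2 hσ.le
        _ = σ * W * d := by ring
        _ ≤ o := hoge
    have hmin : μ * N ≤ min (2 * N) ((o : ℝ) / 2) := by
      refine le_min ?_ ?_
      · exact mul_le_mul_of_nonneg_right (min_le_left _ _) hN0.le
      · calc μ * N ≤ (σ / 2) * N := mul_le_mul_of_nonneg_right (min_le_right _ _) hN0.le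
          _ = (σ * N) / 2 := by ring
          _ ≤ o / 2 := by linarith
    set t : ℝ := μ * N * ((o : ℝ) / 4) with ht
    have ht0 : 0 < t := by positivity
    have hgord : ∀ e ∈ (shiftP (fun _ => ξ 0) g).support, ⌈t⌉₊ ≤ e 0 := by
      intro e he
      have h2 := hgI e he
      rw [Fin.sum_univ_one, Nat.cast_one, div_one] at h2
      rw [Nat.ceil_le]
      refine le_trans ?_ h2
      exact mul_le_mul_of_nonneg_right hmin (by positivity)
    have hdb := hdiv k (ξ 0) ⌈t⌉₊ (g.degreeOf 0) g hg0 le_rfl hgord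
    have hm : 1 ≤ Height.mulHeight₁ (ξ 0) := Height.one_le_mulHeight₁ _
    have hPH : 1 ≤ PH g := Height.one_le_mulHeight _
    have h3 := Real.log_le_log (by positivity) hdb
    rw [Real.log_pow, Real.log_mul (by positivity) (by positivity), Real.log_pow] at h3
    push_cast at h3
    set h := Height.logHeight₁ (ξ 0) with hh
    have hh' : Real.log (Height.mulHeight₁ (ξ 0)) = h := rfl
    rw [hh', ← hδ] at h3
    have hh0 : 0 ≤ h := Real.log_nonneg hm
    have h4 : t ≤ (⌈t⌉₊ : ℝ) := Nat.le_ceil _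
    have h5 : t * h ≤ g.degreeOf 0 * δ * Real.log 2 + Real.log (PH g) :=
      (mul_le_mul_of_nonneg_right h4 hh0).trans h3
    have h6 : (g.degreeOf 0 : ℝ) * δ * Real.log 2 ≤ 2 * N * (H * W) * (δ * Real.log 2) := by
      have : 0 ≤ δ * Real.log 2 := by positivity
      calc (g.degreeOf 0 : ℝ) * δ * Real.log 2 = (g.degreeOf 0 : ℝ) * (δ * Real.log 2) := by ring
        _ ≤ (2 * N * (H * W)) * (δ * Real.log 2) := mul_le_mul_of_nonneg_right hgdeg this
    have h7 : t * h ≤ 2 * N * (H * W) * E := by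
      calc t * h ≤ 2 * N * (H * W) * (δ * Real.log 2) + 2 * N * (C' * (H * W)) :=
            h5.trans (add_le_add h6 hgPH)
        _ = 2 * N * (H * W) * E := by
            rw [hE]
            ring
    -- `μ o h / 4 ≤ 2 H W E`
    have h8 : μ * (o / 4) * h ≤ 2 * (H * W) * E := by
      have h9 : N * (μ * (o / 4) * h) ≤ N * (2 * (H * W) * E) := by
        calc N * (μ * (o / 4) * h) = t * h := by
              rw [ht]
              ring
          _ ≤ 2 * N * (H * W) * E := h7
          _ = N * (2 * (H * W) * E) := by ring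
      exact le_of_mul_le_mul_left h9 hN0
    have h9 : σ * W * d * (μ * h) ≤ o * (μ * h) :=
      mul_le_mul_of_nonneg_right hoge (by positivity)
    have h10 : W * (σ * μ * (d * h)) ≤ W * (8 * E * H) := by nlinarith
    have h11 := le_of_mul_le_mul_left h10 hW0
    have h12 := hht 0
    rw [← hh] at h12
    have h13 : 8 * E / (σ * μ) * H < d * h :=
      lt_of_le_of_lt (mul_le_mul_of_nonneg_right hKE hH0.le) h12
    rw [div_mul_eq_mul_div, div_lt_iff₀ (by positivity)] at h13
    linarith

end Pool.Agent.Helper35.SGA
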