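import Pool.Agent.Helper76.SGA.Goals
import Pool.Agent.Helper20.Ru.IndMul

/-!
# Project SG (MP_a41896_nt), part A, packet INDM: the index is a valuation
-/

set_option autoImplicit false

open MvPolynomial

namespace Pool.Agent.Helper35.SGA

open Pool.Agent.Helper92.Ru Pool.Agent.Helper42.SG Pool.Agent.Helper20.Ru

noncomputable section

section

variable {k : Type} [Field k] {σ : Type} [Fintype σ]

/-- the weight of an exponent. -/
def wt (r : σ → ℕ) (e : σ →₀ ℕ) : ℝ := ∑ h, (e h : ℝ) / (r h : ℝ)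

omit [Field k] in
theorem wt_add (r : σ → ℕ) (e e' : σ →₀ ℕ) : wt r (e + e') = wt r e + wt r e' := by
  unfold wt
  rw [← Finset.sum_add_distrib]
  refine Finset.sum_congr rfl fun h _ => ?_
  rw [Finsupp.add_apply, Nat.cast_add, add_div]

theorem wt_nonneg (r : σ → ℕ) (e : σ →₀ ℕ) : 0 ≤ wt r e :=
  Finset.sum_nonneg fun _ _ => by positivity

/-- `a` is the minimal weight of the monomials of `p`. -/
def IsMn (r : σ → ℕ) (p : MvPolynomial σ k) (a : ℝ) : Prop :=
  (∃ e ∈ p.support, wt r e = a) ∧ ∀ e ∈ p.support, a ≤ wt r e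

/-- the leading part. -/
def lp (r : σ → ℕ) (a : ℝ) (p : MvPolynomial σ k) : MvPolynomial σ k :=
  open Classical in ∑ e ∈ p.support.filter (fun e => wt r e = a), monomial e (coeff e p)

theorem coeff_lp (r : σ → ℕ) (a : ℝ) (p : MvPolynomial σ k) (d : σ →₀ ℕ) :
    (wt r d = a → coeff d (lp r a p) = coeff d p) ∧ (wt r d ≠ a → coeff d (lp r a p) = 0) := by
  classical
  have h1 : coeff d (lp r a p) = if d ∈ p.support.filter (fun e => wt r e = a)
      then coeff d p else 0 := by
    unfold lp
    rw [coeff_sum]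
    rw [Finset.sum_congr rfl fun e _ => coeff_monomial d e (coeff e p)]
    rw [Finset.sum_ite_eq' (p.support.filter (fun e => wt r e = a)) d (fun e => coeff e p)]
  constructor
  · intro h
    rw [h1]
    by_cases hd : d ∈ p.support
    · rw [if_pos (Finset.mem_filter.2 ⟨hd, h⟩)]
    · rw [if_neg fun h' => hd (Finset.mem_filter.1 h').1]
      exact (notMem_support_iff.1 hd).symm
  · intro h
    have h2 : d ∉ p.support.filter (fun e => wt r e = a) :=
      fun h' => h (Finset.mem_filter.1 h').2
    rw [h1, if_neg h2]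

theorem isMn_mul (r : σ → ℕ) {p q : MvPolynomial σ k} {a b : ℝ} (hp : IsMn r p a)
    (hq : IsMn r q b) : IsMn r (p * q) (a + b) := by
  classical
  constructor
  · obtain ⟨⟨e1, he1, hw1⟩, hp2⟩ := hp
    obtain ⟨⟨e2, he2, hw2⟩, hq2⟩ := hq
    have hp0 : lp r a p ≠ 0 := by
      intro h
      have h1 := (coeff_lp r a p e1).1 hw1
      rw [h, coeff_zero] at h1
      exact mem_support_iff.1 he1 h1.symm
    have hq0 : lp r b q ≠ 0 := by
      intro h
      have h1 := (coeff_lp r b q e2).1 hw2
      rw [h, coeff_zero] at h1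
      exact mem_support_iff.1 he2 h1.symm
    obtain ⟨d, hd⟩ := ne_zero_iff.1 (mul_ne_zero hp0 hq0)
    have hsum : coeff d (lp r a p * lp r b q)
        = ∑ x ∈ Finset.HasAntidiagonal.antidiagonal d, coeff x.1 (lp r a p) * coeff x.2 (lp r b q) :=
      coeff_mul _ _ _
    have hwd : wt r d = a + b := by
      rw [hsum] at hd
      obtain ⟨x, hx, hx0⟩ := Finset.exists_ne_zero_of_sum_ne_zero hd
      have h1 : wt r x.1 = a := by
        by_contra h
        exact hx0 (by rw [(coeff_lp r a p x.1).2 h, zero_mul])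
      have h2 : wt r x.2 = b := by
        by_contra h
        exact hx0 (by rw [(coeff_lp r b q x.2).2 h, mul_zero])
      rw [← Finset.HasAntidiagonal.mem_antidiagonal.1 hx, wt_add, h1, h2]
    refine ⟨d, ?_, hwd⟩
    rw [mem_support_iff]
    have h3 : coeff d (p * q) = coeff d (lp r a p * lp r b q) := by
      rw [hsum, coeff_mul]
      refine Finset.sum_congr rfl fun x hx => ?_
      have hxs : wt r x.1 + wt r x.2 = a + b := by
        rw [← wt_add, Finset.HasAntidiagonal.mem_antidiagonal.1 hx, hwd]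
      by_cases h1 : wt r x.1 = a
      · have h2 : wt r x.2 = b := by linarith
        rw [(coeff_lp r a p x.1).1 h1, (coeff_lp r b q x.2).1 h2]
      · rw [(coeff_lp r a p x.1).2 h1, zero_mul]
        by_contra h0
        have hm1 : x.1 ∈ p.support := mem_support_iff.2 fun h => h0 (by rw [h, zero_mul])
        have hm2 : x.2 ∈ q.support := mem_support_iff.2 fun h => h0 (by rw [h, mul_zero])
        have g1 := hp2 _ hm1
        have g2 := hq2 _ hm2
        exact h1 (by linarith)
    rw [h3]
    exact hd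
  · intro e he
    obtain ⟨e1, he1, e2, he2, rfl⟩ := Finset.mem_add.1 (support_mul p q he)
    rw [wt_add]
    exact add_le_add (hp.2 e1 he1) (hq.2 e2 he2)

theorem isMn_one (r : σ → ℕ) : IsMn r (1 : MvPolynomial σ k) 0 := by
  constructor
  · refine ⟨0, ?_, ?_⟩
    · rw [mem_support_iff, coeff_zero_one]
      exact one_ne_zero
    · unfold wt
      exact Finset.sum_eq_zero fun h _ => by simp
  · intro e _
    exact wt_nonneg r e

theorem isMn_prod (r : σ → ℕ) {ι : Type} (s : Finset ι) (p : ι → MvPolynomial σ k) (a : ι → ℝ)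
    (h : ∀ i ∈ s, IsMn r (p i) (a i)) : IsMn r (∏ i ∈ s, p i) (∑ i ∈ s, a i) := by
  classical
  induction s using Finset.induction_on with
  | empty =>
    rw [Finset.prod_empty, Finset.sum_empty]
    exact isMn_one r
  | insert i s hi ih =>
    rw [Finset.prod_insert hi, Finset.sum_insert hi]
    exact isMn_mul r (h i (Finset.mem_insert_self i s))
      (ih fun j hj => h j (Finset.mem_insert_of_mem hj))

end

/-- **INDM** -/
theorem indm : Pool.Agent.Helper42.SG.INDM := by
  intro k _ m r ξ θ ι s f hf hI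
  have hex : ∀ i : ι, ∃ a : ℝ, i ∈ s → IsMn r (shiftP ξ (f i)) a := by
    intro i
    by_cases hi : i ∈ s
    · obtain ⟨e, he, hmin⟩ := exists_min r (shiftP_ne_zero ξ (hf i hi))
      exact ⟨wt r e, fun _ => ⟨⟨e, he, rfl⟩, hmin⟩⟩
    · exact ⟨0, fun h => absurd h hi⟩
  choose a ha using hex
  refine ⟨a, fun i hi => ⟨?_, (ha i hi).2⟩, ?_⟩
  · obtain ⟨⟨e, -, he⟩, -⟩ := ha i hi
    rw [← he]
    exact wt_nonneg r e
  · obtain ⟨⟨e, he, hw⟩, -⟩ := isMn_prod r s (fun i => shiftP ξ (f i)) a ha
    rw [← hw]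
    refine hI e ?_
    rw [map_prod]
    exact he

end

end Pool.Agent.Helper35.SGA
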