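import Pool.Agent.Helper76.SGA.Goals

/-!
# SGA-RESA: the elimination statement `RES` from its parts
-/

set_option autoImplicit false

open MvPolynomial

namespace Pool.Agent.Helper35.SGA

open Pool.Agent.Helper92.Ru Pool.Agent.Helper42.SG Pool.Agent.Helper76.SGA

theorem indGe_mono2 {k : Type} [Field k] {m : ℕ} {r : Fin m → ℕ} {ξ : Fin m → k} {θ θ' : ℝ}
    {p : MvPolynomial (Fin m) k} (h : IndGe r ξ θ p) (hle : θ' ≤ θ) : IndGe r ξ θ' p :=
  fun e he => hle.trans (h e he)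

theorem sum_lower2 (N : ℕ) (τ : ℝ) (r : ℕ) (hr : 1 ≤ r) (hτ : 0 < τ) :
    min (2 * (N : ℝ)) (τ * r / 4) * (τ / 4) ≤
      ∑ i ∈ Finset.range (2 * N), max 0 (τ / 2 - (i : ℝ) / (r : ℝ)) := by
  have hr' : (0 : ℝ) < r := by exact_mod_cast (by omega : 0 < r)
  set K : ℕ := min (2 * N) (⌊τ * r / 4⌋₊ + 1) with hK
  have h1 : min (2 * (N : ℝ)) (τ * r / 4) ≤ K := by
    rw [hK]
    push_cast
    exact min_le_min le_rfl (Nat.lt_floor_add_one _).le
  have h2 : ∑ i ∈ Finset.range K, max 0 (τ / 2 - (i : ℝ) / (r : ℝ)) ≤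
      ∑ i ∈ Finset.range (2 * N), max 0 (τ / 2 - (i : ℝ) / (r : ℝ)) := by
    apply Finset.sum_le_sum_of_subset_of_nonneg
    · exact Finset.range_mono (min_le_left _ _)
    · intros
      exact le_max_left _ _
  have h3 : (K : ℝ) * (τ / 4) ≤
      ∑ i ∈ Finset.range K, max 0 (τ / 2 - (i : ℝ) / (r : ℝ)) := by
    have h4 : ∑ _i ∈ Finset.range K, (τ / 4) ≤
        ∑ i ∈ Finset.range K, max 0 (τ / 2 - (i : ℝ) / (r : ℝ)) := by
      apply Finset.sum_le_sum
      intro i hi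
      have hi1 : i < K := Finset.mem_range.1 hi
      have hi2 : i ≤ ⌊τ * r / 4⌋₊ := by omega
      have hi3 : (i : ℝ) ≤ τ * r / 4 := (Nat.le_floor_iff (by positivity)).1 hi2
      have hi4 : (i : ℝ) / r ≤ τ / 4 := by
        rw [div_le_iff₀ hr']
        linarith
      apply le_max_of_le_right
      linarith
    simpa using h4
  calc min (2 * (N : ℝ)) (τ * r / 4) * (τ / 4) ≤ (K : ℝ) * (τ / 4) :=
        mul_le_mul_of_nonneg_right h1 (by positivity)
    _ ≤ _ := h3.trans h2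

theorem resa : RESA := by
  intro hsep hrnz hrdeg hrht hrix hddv k _ _ m
  obtain ⟨C, hC1, hC⟩ := hrht k (m + 1)
  obtain ⟨s1, s2, s3, s4, s5, s6, s7, s8, s9⟩ := hsep k (m + 1)
  refine ⟨1 + C, by linarith, ?_⟩
  intro r ξ f H W τ ρ hr hW hirr hdeg hht hτ hind hY hex hρ hρr hρτ
  obtain ⟨h, hh⟩ := hex
  have hf0 : f ≠ 0 := hirr.ne_zero
  obtain ⟨d1, d2, d3, d4, d5⟩ := hddv k (m + 2) f h.castSucc.castSucc hf0 hh
  have hFdeg : (sepL k (m + 1) f).natDegree = f.degreeOf (Fin.last (m + 1)) := s5 f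
  have hGdeg : (sepL k (m + 1) (pderiv h.castSucc.castSucc f)).natDegree
      ≤ f.degreeOf (Fin.last (m + 1)) := by
    rw [s5]
    exact d3 _
  have hFirr : Irreducible (sepL k (m + 1) f) :=
    (MulEquiv.irreducible_iff (sepL k (m + 1))).2 hirr
  have hndvd : ¬ sepL k (m + 1) f ∣ sepL k (m + 1) (pderiv h.castSucc.castSucc f) := by
    rw [map_dvd_iff (sepL k (m + 1))]
    exact d2
  refine ⟨Polynomial.resultant (sepL k (m + 1) f)
    (sepL k (m + 1) (pderiv h.castSucc.castSucc f)) (f.degreeOf (Fin.last (m + 1)))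
    (f.degreeOf (Fin.last (m + 1))), ?_, ?_, ?_, ?_⟩
  · have h1 := hrnz (MvPolynomial (Fin (m + 1)) k) (sepL k (m + 1) f)
      (sepL k (m + 1) (pderiv h.castSucc.castSucc f)) hFirr (by rw [hFdeg]; exact hY) hndvd
      (by rw [hFdeg]; exact hGdeg)
    rwa [hFdeg] at h1
  · intro h'
    exact hrdeg k (m + 1) _ (f.degreeOf (Fin.castSucc h')) f
      (pderiv h.castSucc.castSucc f) h' le_rfl (d3 _)
  · have hB : ∀ h', (f.degreeOf h' : ℝ) ≤ H * W := fun h' =>
      (hdeg h').trans (mul_le_mul_of_nonneg_right (hr h').2 hW.le)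
    have h1 := hC f (pderiv h.castSucc.castSucc f) (f.degreeOf (Fin.last (m + 1))) (H * W) hf0
      hY (hB _) hB (fun h' => le_trans (by exact_mod_cast d3 h') (hB h')) (by
        intro e
        obtain ⟨e', c, hc, he⟩ := d4 e
        exact ⟨e', c, le_trans (by exact_mod_cast hc) (hB _), he⟩)
    refine h1.trans ?_
    apply mul_le_mul_of_nonneg_left _ (by positivity)
    nlinarith
  · have h1 : IndGe r ξ (τ / 2) (pderiv h.castSucc.castSucc f) := by
      refine indGe_mono2 (d5 r ξ τ hind) ?_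
      have h2 : 1 / (r h.castSucc.castSucc : ℝ) ≤ 1 / ρ :=
        one_div_le_one_div_of_le hρ (hρr h)
      linarith
    have h3 := hrix k (m + 1) _ r ξ τ (τ / 2) f (pderiv h.castSucc.castSucc f)
      (fun h' => (hr h').1) rfl (d3 _) (by linarith) hind h1
    exact indGe_mono2 h3 (sum_lower2 _ τ _ (hr _).1 hτ)

end Pool.Agent.Helper35.SGA
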